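import Pool.Agent.H263_OHF.Hole

/-!
# Colourings of the graph and exact covers
-/

set_option autoImplicit false

namespace Pool.Agent.H263_OHF

open Pool.Agent.NPC Pool.Agent.NPC.H632 Pool.Agent.H622R2

theorem mem_el {t : ℕ × ℕ × ℕ} {x : ℕ} : x ∈ el t ↔ ∃ p, p < 3 ∧ cmp t p = x := by
  unfold el cmp
  simp only [List.mem_cons, List.not_mem_nil, or_false]
  constructor
  · rintro (h | h | h)
    · exact ⟨0, by omega, by simp [h]⟩
    · exact ⟨1, by omega, by simp [h]⟩
    · exact ⟨2, by omega, by simp [h]⟩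
  · rintro ⟨p, hp, h⟩
    interval_cases p
    · exact Or.inl (by simpa using h.symm)
    · exact Or.inr (Or.inl (by simpa using h.symm))
    · exact Or.inr (Or.inr (by simpa using h.symm))

theorem nel_eq {I : List (ℕ × ℕ × ℕ) × ℕ} (hI : X3CPr I) : nel I = 3 * I.2 := by
  unfold nel
  rw [min_eq_left hI.2.2]

theorem colorable_of_list {W β : Type} (G : SimpleGraph W) (f : W → β) (L : List β)
    (hf : ∀ v, f v ∈ L) (hadj : ∀ u v, G.Adj u v → f u ≠ f v) : G.Colorable L.length := by
  classical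
  let C : G.Coloring {x // x ∈ L.toFinset} :=
    SimpleGraph.Coloring.mk (fun v => ⟨f v, List.mem_toFinset.2 (hf v)⟩)
      (fun {u v} h he => hadj u v h (congrArg Subtype.val he))
  refine C.colorable.mono ?_
  rw [Fintype.card_coe]
  exact L.toFinset_card_le

theorem colorable_of_cover {I : List (ℕ × ℕ × ℕ) × ℕ} (hI : X3CPr I) (h : X3C I) :
    (Gr I).Colorable (I.2 + 3 * I.1.length) := by
  classical
  obtain ⟨C, hC, hp⟩ := h
  have hq : C.length = I.2 := X3C_length hp
  have hpick : ∀ x, ∃ tp : (ℕ × ℕ × ℕ) × ℕ, x < 3 * I.2 → tp.1 ∈ C ∧ tp.2 < 3 ∧ cmp tp.1 tp.2 = x := by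
    intro x
    by_cases hx : x < 3 * I.2
    · have h1 : x ∈ C.flatMap el := hp.mem_iff.2 (List.mem_range.2 hx)
      rw [List.mem_flatMap] at h1
      obtain ⟨t, ht, hxt⟩ := h1
      obtain ⟨p, hp3, hpx⟩ := mem_el.1 hxt
      exact ⟨(t, p), fun _ => ⟨ht, hp3, hpx⟩⟩
    · exact ⟨((0, 0, 0), 0), fun h => absurd h hx⟩
  choose pick hpick using hpick
  let ix : ℕ × ℕ × ℕ → ℕ := fun t => I.1.idxOf t
  have hix : ∀ t ∈ C, (t, ix t) ∈ I.1.zipIdx := by
    intro t ht
    rw [List.mem_zipIdx_iff_getElem?]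
    exact List.getElem?_idxOf (hC t ht)
  let col : V → ((ℕ × ℕ × ℕ) × ℕ) × ℕ := fun v => Sum.elim
    (fun x => (((pick x).1, ix (pick x).1), (pick x).2))
    (fun g => if g.2 % 3 = 2 ∧ g.1.1 ∈ C ∧ g.1.2 = ix g.1.1 then (g.1, 3) else (g.1, g.2 / 3)) v
  let L : List (((ℕ × ℕ × ℕ) × ℕ) × ℕ) := I.1.zipIdx.flatMap (fun tc => [(tc, 0), (tc, 1), (tc, 2)]) ++
    C.map (fun t => ((t, ix t), 3))
  have hL : L.length = I.2 + 3 * I.1.length := by
    show (I.1.zipIdx.flatMap (fun tc => [(tc, 0), (tc, 1), (tc, 2)]) ++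
      C.map (fun t => ((t, ix t), 3))).length = _
    rw [List.length_append, List.length_map, hq, List.length_flatMap]
    simp
    ring
  rw [← hL]
  have hmem : ∀ tc ∈ I.1.zipIdx, ∀ p, p < 3 → (tc, p) ∈ L := by
    intro tc htc p hp3
    refine List.mem_append_left _ (List.mem_flatMap.2 ⟨tc, htc, ?_⟩)
    interval_cases p <;> simp
  refine colorable_of_list (Gr I) (fun v => col v.1) L ?_ ?_
  · rintro ⟨v, hv⟩
    rcases v with x | ⟨tc, k⟩
    · rw [mem_vs_inl, nel_eq hI] at hv
      obtain ⟨h1, h2, h3⟩ := hpick x hv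
      exact hmem _ (hix _ h1) _ h2
    · rw [mem_vs_inr] at hv
      obtain ⟨h1, h2⟩ := hv
      show (if k % 3 = 2 ∧ tc.1 ∈ C ∧ tc.2 = ix tc.1 then (tc, 3) else (tc, k / 3)) ∈ L
      split_ifs with h3
      · refine List.mem_append_right _ (List.mem_map.2 ⟨tc.1, h3.2.1, ?_⟩)
        rw [← h3.2.2]
      · exact hmem _ h1 _ (by omega)
  · rintro ⟨u, hu⟩ ⟨v, hv⟩ hadj heq
    rw [gr_adj] at hadj
    obtain ⟨hne, hf⟩ := hadj
    have hne : u ≠ v := fun h => hne (Subtype.ext h)
    simp only at hf heq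
    rcases u with x | ⟨tc, k⟩ <;> rcases v with y | ⟨tc', k'⟩
    · rw [mem_vs_inl, nel_eq hI] at hu hv
      obtain ⟨-, -, h3⟩ := hpick x hu
      obtain ⟨-, -, h3'⟩ := hpick y hv
      have e1 : (pick x).1 = (pick y).1 := congrArg (fun z => z.1.1) heq
      have e2 : (pick x).2 = (pick y).2 := congrArg (fun z => z.2) heq
      apply hne
      rw [← h3, ← h3', e1, e2]
    · rw [mem_vs_inl, nel_eq hI] at hu
      rw [mem_vs_inr] at hv
      obtain ⟨h1, h2, h3⟩ := hpick x hu
      have heq' : (((pick x).1, ix (pick x).1), (pick x).2) =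
        (if k' % 3 = 2 ∧ tc'.1 ∈ C ∧ tc'.2 = ix tc'.1 then (tc', 3) else (tc', k' / 3)) := heq
      split_ifs at heq' with h4
      · have := congrArg Prod.snd heq'
        simp only at this
        omega
      · rw [Prod.mk.injEq] at heq'
        obtain ⟨h5, h6⟩ := heq'
        have h7 : k' % 3 ≠ 2 := by
          intro h7
          apply h4
          rw [← h5]
          exact ⟨h7, h1, rfl⟩
        have : adjE x (tc', k') = true := by
          rw [adjE_iff]
          refine ⟨h7, ?_⟩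
          simp only
          rw [← h5, ← h6]
          exact h3
        rw [adjH_lr, this] at hf
        exact absurd hf (by simp)
    · rw [mem_vs_inl, nel_eq hI] at hv
      rw [mem_vs_inr] at hu
      obtain ⟨h1, h2, h3⟩ := hpick y hv
      have heq' : (if k % 3 = 2 ∧ tc.1 ∈ C ∧ tc.2 = ix tc.1 then (tc, 3) else (tc, k / 3)) =
        (((pick y).1, ix (pick y).1), (pick y).2) := heq
      split_ifs at heq' with h4
      · have := congrArg Prod.snd heq'
        simp only at this
        omega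
      · rw [Prod.mk.injEq] at heq'
        obtain ⟨h5, h6⟩ := heq'
        have h7 : k % 3 ≠ 2 := by
          intro h7
          apply h4
          rw [h5]
          exact ⟨h7, h1, rfl⟩
        have : adjE y (tc, k) = true := by
          rw [adjE_iff]
          refine ⟨h7, ?_⟩
          simp only
          rw [h5, h6]
          exact h3
        rw [adjH_rl, this] at hf
        exact absurd hf (by simp)
    · rw [mem_vs_inr] at hu hv
      have heq' : (if k % 3 = 2 ∧ tc.1 ∈ C ∧ tc.2 = ix tc.1 then (tc, 3) else (tc, k / 3)) =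
        (if k' % 3 = 2 ∧ tc'.1 ∈ C ∧ tc'.2 = ix tc'.1 then (tc', 3) else (tc', k' / 3)) := heq
      have key : tc = tc' ∧ (k / 3 = k' / 3 ∨ (k % 3 = 2 ∧ k' % 3 = 2)) := by
        split_ifs at heq' with h4 h5 h5
        · exact ⟨congrArg Prod.fst heq', Or.inr ⟨h4.1, h5.1⟩⟩
        · have := congrArg Prod.snd heq'
          simp only at this
          omega
        · have := congrArg Prod.snd heq'
          simp only at this
          omega
        · exact ⟨congrArg Prod.fst heq', Or.inl (congrArg Prod.snd heq')⟩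
      have : adjD (tc, k) (tc', k') = true := by
        rw [adjD_iff]
        refine ⟨key.1, ?_, key.2⟩
        intro h
        simp only at h
        apply hne
        rw [key.1, h]
      rw [adjH_rr, this] at hf
      exact absurd hf (by simp)

/-- An exact cover from a partition of the vertices into triangles of `H`. -/
theorem cover_of_classes {I : List (ℕ × ℕ × ℕ) × ℕ} (hI : X3CPr I) (col : V → ℕ)
    (P1 : ∀ u ∈ vs I, ∀ v ∈ vs I, u ≠ v → col u = col v → adjH u v = true)
    (P2 : ∀ v ∈ vs I, ∃ u ∈ vs I, ∃ w ∈ vs I, v ≠ u ∧ v ≠ w ∧ u ≠ w ∧ col u = col v ∧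
      col w = col v) : X3C I := by
  classical
  have memx : ∀ tc ∈ I.1.zipIdx, ∀ p, p < 3 → (Sum.inl (cmp tc.1 p) : V) ∈ vs I := by
    intro tc htc p hp
    rw [mem_vs_inl, nel_eq hI]
    have ht : tc.1 ∈ I.1 := List.fst_mem_of_mem_zipIdx htc
    exact (hI.1 tc.1 ht).2 _ (mem_el.2 ⟨p, hp, rfl⟩)
  have memg : ∀ tc ∈ I.1.zipIdx, ∀ k, k < 9 → (Sum.inr (tc, k) : V) ∈ vs I :=
    fun tc htc k hk => mem_vs_inr.2 ⟨htc, hk⟩
  -- the class of the vertex `a`
  have Q1 : ∀ tc ∈ I.1.zipIdx, ∀ p, p < 3 → col (Sum.inr (tc, 3 * p + 1)) = col (Sum.inr (tc, 3 * p)) ∧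
      (col (Sum.inl (cmp tc.1 p)) = col (Sum.inr (tc, 3 * p)) ∨
        col (Sum.inr (tc, 3 * p + 2)) = col (Sum.inr (tc, 3 * p))) := by
    intro tc htc p hp
    obtain ⟨u, hu, w, hw, h1, h2, h3, h4, h5⟩ := P2 _ (memg tc htc (3 * p) (by omega))
    have hau := P1 _ (memg tc htc (3 * p) (by omega)) u hu h1 h4.symm
    have haw := P1 _ (memg tc htc (3 * p) (by omega)) w hw h2 h5.symm
    have huw := P1 u hu w hw h3 (h4.trans h5.symm)
    have nb : ∀ z : V, adjH (Sum.inr (tc, 3 * p)) z = true → z = Sum.inl (cmp tc.1 p) ∨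
        z = Sum.inr (tc, 3 * p + 1) ∨ z = Sum.inr (tc, 3 * p + 2) := by
      intro z hz
      rcases z with y | ⟨tc', k⟩
      · rw [adjH_rl, adjE_iff] at hz
        left
        obtain ⟨-, hz⟩ := hz
        simp only at hz
        rw [← hz]
        congr 2
        omega
      · rw [adjH_rr, adjD_iff] at hz
        obtain ⟨e1, e2, e3⟩ := hz
        simp only at e1 e2 e3
        subst e1
        right
        have : k = 3 * p + 1 ∨ k = 3 * p + 2 := by omega
        rcases this with rfl | rfl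
        · exact Or.inl rfl
        · exact Or.inr rfl
    have xd : adjH (Sum.inl (cmp tc.1 p)) (Sum.inr (tc, 3 * p + 2)) = false := by
      rw [adjH_lr]
      by_contra hc
      have hc' : adjE (cmp tc.1 p) (tc, 3 * p + 2) = true := by simpa using hc
      rw [adjE_iff] at hc'
      simp only at hc'
      omega
    rcases nb u hau with rfl | rfl | rfl <;> rcases nb w haw with rfl | rfl | rfl
    · exact absurd rfl h3
    · exact ⟨h5, Or.inl h4⟩
    · rw [xd] at huw; exact absurd huw (by simp)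
    · exact ⟨h4, Or.inl h5⟩
    · exact absurd rfl h3
    · exact ⟨h4, Or.inr h5⟩
    · rw [adjH_comm, xd] at huw; exact absurd huw (by simp)
    · exact ⟨h5, Or.inr h4⟩
    · exact absurd rfl h3
  have Q2 : ∀ tc ∈ I.1.zipIdx, ∀ p, p < 3 →
      col (Sum.inr (tc, 3 * p + 2)) ≠ col (Sum.inr (tc, 3 * p)) →
      ∀ q, q < 3 → col (Sum.inr (tc, 3 * q + 2)) = col (Sum.inr (tc, 3 * p + 2)) := by
    intro tc htc p hp hne q hq
    obtain ⟨u, hu, w, hw, h1, h2, h3, h4, h5⟩ := P2 _ (memg tc htc (3 * p + 2) (by omega))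
    have hau := P1 _ (memg tc htc (3 * p + 2) (by omega)) u hu h1 h4.symm
    have haw := P1 _ (memg tc htc (3 * p + 2) (by omega)) w hw h2 h5.symm
    have nb : ∀ z ∈ vs I, adjH (Sum.inr (tc, 3 * p + 2)) z = true →
        col z = col (Sum.inr (tc, 3 * p + 2)) → ∃ r, r < 3 ∧ r ≠ p ∧ z = Sum.inr (tc, 3 * r + 2) := by
      intro z hzv hz hcz
      rcases z with y | ⟨tc', k⟩
      · rw [adjH_rl, adjE_iff] at hz
        simp only at hz
        omega
      · rw [adjH_rr, adjD_iff] at hz
        obtain ⟨e1, e2, e3⟩ := hz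
        simp only at e1 e2 e3
        subst e1
        rw [mem_vs_inr] at hzv
        by_cases hk : k / 3 = p
        · exfalso
          have : k = 3 * p ∨ k = 3 * p + 1 := by omega
          rcases this with rfl | rfl
          · exact hne hcz.symm
          · exact hne (hcz.symm.trans (Q1 tc htc p hp).1)
        · refine ⟨k / 3, by omega, hk, ?_⟩
          congr 2
          omega
    obtain ⟨r, hr, hrp, rfl⟩ := nb u hu hau h4
    obtain ⟨r', hr', hrp', rfl⟩ := nb w hw haw h5
    have hrr : r ≠ r' := fun h => h3 (by rw [h])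
    have : q = p ∨ q = r ∨ q = r' := by omega
    rcases this with rfl | rfl | rfl
    · rfl
    · exact h4
    · exact h5
  have Q3 : ∀ tc ∈ I.1.zipIdx, ∀ p, p < 3 → ∀ q, q < 3 → p ≠ q →
      col (Sum.inr (tc, 3 * p + 2)) = col (Sum.inr (tc, 3 * q + 2)) →
      col (Sum.inr (tc, 3 * p + 2)) ≠ col (Sum.inr (tc, 3 * p)) := by
    intro tc htc p hp q hq hpq h1 h2
    have h3 := P1 _ (memg tc htc (3 * p) (by omega)) _ (memg tc htc (3 * q + 2) (by omega))
      (by
        intro h
        rw [Sum.inr.injEq, Prod.mk.injEq] at h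
        omega) (h2.symm.trans h1)
    rw [adjH_rr, adjD_iff] at h3
    simp only at h3
    omega
  have Q4 : ∀ tc ∈ I.1.zipIdx, ∀ p, p < 3 →
      col (Sum.inl (cmp tc.1 p)) = col (Sum.inr (tc, 3 * p)) →
      col (Sum.inr (tc, 3 * p + 2)) ≠ col (Sum.inr (tc, 3 * p)) := by
    intro tc htc p hp h1 h2
    have h3 := P1 _ (memx tc htc p hp) _ (memg tc htc (3 * p + 2) (by omega)) (by simp)
      (h1.trans h2.symm)
    rw [adjH_lr, adjE_iff] at h3
    simp only at h3
    omega
  let chosen : (ℕ × ℕ × ℕ) × ℕ → Prop := fun tc => col (Sum.inr (tc, 2)) = col (Sum.inr (tc, 5))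
  have sel : ∀ tc ∈ I.1.zipIdx, ∀ p, p < 3 →
      (col (Sum.inl (cmp tc.1 p)) = col (Sum.inr (tc, 3 * p)) ↔ chosen tc) := by
    intro tc htc p hp
    constructor
    · intro h
      have h1 := Q2 tc htc p hp (Q4 tc htc p hp h)
      exact (h1 0 (by omega)).trans (h1 1 (by omega)).symm
    · intro h
      have h0 := Q2 tc htc 0 (by omega) (Q3 tc htc 0 (by omega) 1 (by omega) (by omega) h)
      have h1 : col (Sum.inr (tc, 3 * p + 2)) ≠ col (Sum.inr (tc, 3 * p)) := by
        by_cases hp0 : p = 0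
        · subst hp0
          exact Q3 tc htc 0 (by omega) 1 (by omega) (by omega) h
        · exact Q3 tc htc p hp 0 (by omega) hp0 (h0 p hp)
      rcases (Q1 tc htc p hp).2 with h2 | h2
      · exact h2
      · exact absurd h2 h1
  have Q5 : ∀ x, x < 3 * I.2 → ∃ tc ∈ I.1.zipIdx, chosen tc ∧ x ∈ el tc.1 := by
    intro x hx
    have hxv : (Sum.inl x : V) ∈ vs I := by rw [mem_vs_inl, nel_eq hI]; exact hx
    obtain ⟨u, hu, w, hw, h1, h2, h3, h4, h5⟩ := P2 _ hxv
    have hau := P1 _ hxv u hu h1 h4.symm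
    rcases u with y | ⟨tc, k⟩
    · rw [adjH_ll] at hau
      exact absurd hau (by simp)
    · rw [adjH_lr, adjE_iff] at hau
      obtain ⟨e1, e2⟩ := hau
      simp only at e1 e2
      rw [mem_vs_inr] at hu
      obtain ⟨htc, hk⟩ := hu
      refine ⟨tc, htc, ?_, mem_el.2 ⟨k / 3, by omega, e2⟩⟩
      rw [← sel tc htc (k / 3) (by omega), e2]
      have : k = 3 * (k / 3) ∨ k = 3 * (k / 3) + 1 := by omega
      rcases this with h | h
      · rw [← h]
        exact h4.symm
      · rw [← (Q1 tc htc (k / 3) (by omega)).1, ← h]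
        exact h4.symm
  have Q6 : ∀ tc ∈ I.1.zipIdx, ∀ tc' ∈ I.1.zipIdx, chosen tc → chosen tc' → ∀ x, x ∈ el tc.1 →
      x ∈ el tc'.1 → tc = tc' := by
    intro tc htc tc' htc' h1 h2 x hx hx'
    obtain ⟨p, hp, rfl⟩ := mem_el.1 hx
    obtain ⟨p', hp', hpp⟩ := mem_el.1 hx'
    have h3 := (sel tc htc p hp).2 h1
    have h4 := (sel tc' htc' p' hp').2 h2
    rw [hpp] at h4
    by_contra hne
    have h5 := P1 _ (memg tc htc (3 * p) (by omega)) _ (memg tc' htc' (3 * p') (by omega))
      (by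
        intro h
        rw [Sum.inr.injEq, Prod.mk.injEq] at h
        exact hne h.1) (h3.symm.trans h4)
    rw [adjH_rr, adjD_iff] at h5
    exact hne h5.1
  refine ⟨(I.1.zipIdx.filter fun tc => decide (chosen tc)).map Prod.fst, ?_, ?_⟩
  · intro t ht
    rw [List.mem_map] at ht
    obtain ⟨tc, htc, rfl⟩ := ht
    exact List.fst_mem_of_mem_zipIdx (List.mem_of_mem_filter htc)
  · refine (List.perm_ext_iff_of_nodup ?_ List.nodup_range).2 ?_
    · rw [List.flatMap_map, List.nodup_flatMap]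
      constructor
      · intro tc htc
        exact (hI.1 tc.1 (List.fst_mem_of_mem_zipIdx (List.mem_of_mem_filter htc))).1
      · refine ((nodup_zipIdx I.1).filter _).pairwise_of_forall_ne fun a ha b hb hab => ?_
        intro x hx hx'
        rw [List.mem_filter] at ha hb
        exact hab (Q6 a ha.1 b hb.1 (by simpa using ha.2) (by simpa using hb.2) x hx hx')
    · intro x
      rw [List.mem_range, List.flatMap_map, List.mem_flatMap]
      constructor
      · rintro ⟨tc, htc, hx⟩
        exact (hI.1 tc.1 (List.fst_mem_of_mem_zipIdx (List.mem_of_mem_filter htc))).2 x hx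
      · intro hx
        obtain ⟨tc, htc, h1, h2⟩ := Q5 x hx
        exact ⟨tc, List.mem_filter.2 ⟨htc, by simpa using h1⟩, h2⟩

theorem cover_of_colorable {I : List (ℕ × ℕ × ℕ) × ℕ} (hI : X3CPr I)
    (h : (Gr I).Colorable (I.2 + 3 * I.1.length)) : X3C I := by
  classical
  obtain ⟨C⟩ := h
  have : Fintype {x // x ∈ vs I} := List.Subtype.fintype (vs I)
  have hcard : Fintype.card {x // x ∈ vs I} = 3 * (I.2 + 3 * I.1.length) := by
    have h1 : Fintype.card {x // x ∈ vs I} = (vs I).length := by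
      rw [Fintype.card_of_subtype (vs I).toFinset (fun x => List.mem_toFinset)]
      exact List.toFinset_card_of_nodup (nodup_vs I)
    rw [h1, length_vs, nel_eq hI]
    ring
  let fib : Fin (I.2 + 3 * I.1.length) → Finset {x // x ∈ vs I} :=
    fun c => Finset.univ.filter fun v => C v = c
  have hle : ∀ c, (fib c).card ≤ 3 := by
    intro c
    apply indep_le
    intro u hu v hv hne hadj
    have hu' : C u = c := by simpa [fib] using hu
    have hv' : C v = c := by simpa [fib] using hv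
    exact C.valid hadj (hu'.trans hv'.symm)
  have hsum : ∑ c, (fib c).card = ∑ _c : Fin (I.2 + 3 * I.1.length), 3 := by
    rw [← Finset.card_eq_sum_card_fiberwise (f := fun v => C v) (s := Finset.univ)
      (t := Finset.univ) (by intro v _; simp)]
    rw [Finset.card_univ, hcard]
    simp
    ring
  have heq : ∀ c, (fib c).card = 3 := by
    have := (Finset.sum_eq_sum_iff_of_le (fun c _ => hle c)).1 hsum
    intro c
    exact this c (Finset.mem_univ c)
  refine cover_of_classes hI (fun v => if h : v ∈ vs I then (C ⟨v, h⟩ : ℕ) else 0) ?_ ?_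
  · intro u hu v hv hne hc
    simp only [hu, hv, dif_pos] at hc
    have hc' : C ⟨u, hu⟩ = C ⟨v, hv⟩ := Fin.ext hc
    have hne' : (⟨u, hu⟩ : {x // x ∈ vs I}) ≠ ⟨v, hv⟩ := fun h => hne (congrArg Subtype.val h)
    exact gr_not_adj (fun hadj => C.valid hadj hc') hne'
  · intro v hv
    have h3 := heq (C ⟨v, hv⟩)
    have hvf : (⟨v, hv⟩ : {x // x ∈ vs I}) ∈ fib (C ⟨v, hv⟩) := by simp [fib]
    have h4 : ((fib (C ⟨v, hv⟩)).erase ⟨v, hv⟩).card = 2 := by
      rw [Finset.card_erase_of_mem hvf, h3]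
    obtain ⟨u, w, huw, hset⟩ := Finset.card_eq_two.1 h4
    have hu : u ∈ (fib (C ⟨v, hv⟩)).erase ⟨v, hv⟩ := by rw [hset]; simp
    have hw : w ∈ (fib (C ⟨v, hv⟩)).erase ⟨v, hv⟩ := by rw [hset]; simp
    rw [Finset.mem_erase] at hu hw
    have hu2 : C u = C ⟨v, hv⟩ := by simpa [fib] using hu.2
    have hw2 : C w = C ⟨v, hv⟩ := by simpa [fib] using hw.2
    refine ⟨u.1, u.2, w.1, w.2, ?_, ?_, ?_, ?_, ?_⟩
    · exact fun h => hu.1 (Subtype.ext h.symm)
    · exact fun h => hw.1 (Subtype.ext h.symm)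
    · exact fun h => huw (Subtype.ext h)
    · simp only [u.2, hv, dif_pos]
      exact congrArg Fin.val hu2
    · simp only [w.2, hv, dif_pos]
      exact congrArg Fin.val hw2

end Pool.Agent.H263_OHF
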