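import Pool.Agent.NPC.Defs
import Pool.Agent.H622R2.MatGraph

/-!
# Odd-hole-free graphs: definitions
-/

set_option autoImplicit false

namespace Pool.Agent.H263_OHF

open Pool.Agent.NPC Pool.Agent.H622R2

/-- A hole is an induced cycle of length at least four, and a graph is odd-hole-free if it has no
hole of odd length, i.e. no induced cycle of odd length at least five. -/
def OddHoleFree {V : Type} (G : SimpleGraph V) : Prop :=
  ∀ n : ℕ, 5 ≤ n → Odd n → IsEmpty (SimpleGraph.cycleGraph n ↪g G)

/-- The list `c` of numbers (`c.getD i 0` is the colour of the vertex `i`) is an optimal colouring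
of the graph with adjacency matrix `M`: it is a proper colouring, and for every `k` such that the
graph has a proper colouring with `k` colours, only the colours `0, ..., k - 1` are used. -/
def OptimalColouring (M : List (List Bool)) (c : List ℕ) : Prop :=
  (∀ i j : Fin M.length, (matGraph M).Adj i j → c.getD i 0 ≠ c.getD j 0) ∧
    ∀ k : ℕ, (matGraph M).Colorable k → ∀ i : Fin M.length, c.getD i 0 < k

end Pool.Agent.H263_OHF
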