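import Pool.Agent.H263_OHF.Defs
import Pool.Agent.H632R2.X3C

/-!
# The graph of an instance of exact cover by 3-sets
-/

set_option autoImplicit false

namespace Pool.Agent.H263_OHF

open Pool.Agent.NPC Pool.Agent.NPC.H632 Pool.Agent.H622R2

/-- a vertex of a gadget: the triple, its number and the number `3 p + j` of the vertex -/
abbrev Gd : Type := ((ℕ × ℕ × ℕ) × ℕ) × ℕ

/-- vertices: elements and gadget vertices -/
abbrev V : Type := ℕ ⊕ Gd

/-- component number `p` of a triple -/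
def cmp (t : ℕ × ℕ × ℕ) (p : ℕ) : ℕ := if p = 0 then t.1 else if p = 1 then t.2.1 else t.2.2

/-- adjacency (in the graph `H`) of an element and a gadget vertex -/
def adjE (x : ℕ) (g : Gd) : Bool := decide (g.2 % 3 ≠ 2 ∧ cmp g.1.1 (g.2 / 3) = x)

/-- adjacency (in the graph `H`) of two gadget vertices -/
def adjD (g g' : Gd) : Bool :=
  decide (g.1 = g'.1 ∧ g.2 ≠ g'.2 ∧ (g.2 / 3 = g'.2 / 3 ∨ (g.2 % 3 = 2 ∧ g'.2 % 3 = 2)))

/-- adjacency in the graph `H` -/
def adjH (u v : V) : Bool :=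
  Sum.elim (fun x => Sum.elim (fun _ => false) (fun g => adjE x g) v)
    (fun g => Sum.elim (fun x => adjE x g) (fun g' => adjD g g') v) u

/-- the number of elements -/
def nel (I : List (ℕ × ℕ × ℕ) × ℕ) : ℕ := 3 * min I.2 I.1.length

/-- the vertices -/
def vs (I : List (ℕ × ℕ × ℕ) × ℕ) : List V :=
  (List.range (nel I)).map Sum.inl ++
    I.1.zipIdx.flatMap fun tc => (List.range 9).map fun k => Sum.inr (tc, k)

theorem adjH_ll (x y : ℕ) : adjH (Sum.inl x) (Sum.inl y) = false := rfl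
theorem adjH_lr (x : ℕ) (g : Gd) : adjH (Sum.inl x) (Sum.inr g) = adjE x g := rfl
theorem adjH_rl (x : ℕ) (g : Gd) : adjH (Sum.inr g) (Sum.inl x) = adjE x g := rfl
theorem adjH_rr (g g' : Gd) : adjH (Sum.inr g) (Sum.inr g') = adjD g g' := rfl

theorem adjE_iff {x : ℕ} {g : Gd} : adjE x g = true ↔ g.2 % 3 ≠ 2 ∧ cmp g.1.1 (g.2 / 3) = x := by
  simp [adjE]

theorem adjD_iff {g g' : Gd} : adjD g g' = true ↔
    g.1 = g'.1 ∧ g.2 ≠ g'.2 ∧ (g.2 / 3 = g'.2 / 3 ∨ (g.2 % 3 = 2 ∧ g'.2 % 3 = 2)) := by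
  simp [adjD]

theorem adjD_comm (g g' : Gd) : adjD g g' = adjD g' g := by
  rw [Bool.eq_iff_iff, adjD_iff, adjD_iff]
  constructor
  · rintro ⟨h1, h2, h3⟩
    exact ⟨h1.symm, h2.symm, h3.imp Eq.symm And.symm⟩
  · rintro ⟨h1, h2, h3⟩
    exact ⟨h1.symm, h2.symm, h3.imp Eq.symm And.symm⟩

theorem adjH_comm (u v : V) : adjH u v = adjH v u := by
  rcases u with x | g <;> rcases v with y | g'
  · rfl
  · rfl
  · rfl
  · exact adjD_comm g g'

theorem mem_vs_inl {I : List (ℕ × ℕ × ℕ) × ℕ} {x : ℕ} : (Sum.inl x : V) ∈ vs I ↔ x < nel I := by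
  simp [vs]

theorem mem_vs_inr {I : List (ℕ × ℕ × ℕ) × ℕ} {tc : (ℕ × ℕ × ℕ) × ℕ} {k : ℕ} :
    (Sum.inr (tc, k) : V) ∈ vs I ↔ tc ∈ I.1.zipIdx ∧ k < 9 := by
  unfold vs
  rw [List.mem_append, List.mem_flatMap]
  constructor
  · rintro (h | ⟨tc', h1, h2⟩)
    · simp at h
    · rw [List.mem_map] at h2
      obtain ⟨k', hk', h3⟩ := h2
      rw [Sum.inr.injEq, Prod.mk.injEq] at h3
      obtain ⟨rfl, rfl⟩ := h3
      exact ⟨h1, List.mem_range.1 hk'⟩
  · rintro ⟨h1, h2⟩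
    exact Or.inr ⟨tc, h1, List.mem_map.2 ⟨k, List.mem_range.2 h2, rfl⟩⟩

theorem nodup_zipIdx {α : Type} (l : List α) : l.zipIdx.Nodup := by
  have h : (l.zipIdx.map Prod.snd).Nodup := by
    rw [List.zipIdx_map_snd]
    exact List.nodup_range'
  exact h.of_map _

theorem nodup_vs (I : List (ℕ × ℕ × ℕ) × ℕ) : (vs I).Nodup := by
  unfold vs
  rw [List.nodup_append]
  refine ⟨List.nodup_range.map Sum.inl_injective, ?_, ?_⟩
  · rw [List.nodup_flatMap]
    refine ⟨fun tc _ => List.nodup_range.map (fun a b h => ?_), ?_⟩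
    · rw [Sum.inr.injEq, Prod.mk.injEq] at h
      exact h.2
    · refine (nodup_zipIdx I.1).pairwise_of_forall_ne fun a ha b hb hab => ?_
      intro x hx hx'
      rw [List.mem_map] at hx hx'
      obtain ⟨k, -, rfl⟩ := hx
      obtain ⟨k', -, h⟩ := hx'
      rw [Sum.inr.injEq, Prod.mk.injEq] at h
      exact hab h.1.symm
  · intro a ha b hb hab
    subst hab
    rw [List.mem_map] at ha
    obtain ⟨x, -, rfl⟩ := ha
    rw [List.mem_flatMap] at hb
    obtain ⟨tc, -, h⟩ := hb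
    rw [List.mem_map] at h
    obtain ⟨k, -, h⟩ := h
    exact absurd h (by simp)

theorem length_vs (I : List (ℕ × ℕ × ℕ) × ℕ) : (vs I).length = nel I + 9 * I.1.length := by
  unfold vs
  rw [List.length_append, List.length_map, List.length_range, List.length_flatMap]
  have h : (I.1.zipIdx.map fun tc : (ℕ × ℕ × ℕ) × ℕ =>
      ((List.range 9).map fun k => (Sum.inr (tc, k) : V)).length) = I.1.zipIdx.map fun _ => 9 :=
    List.map_congr_left fun _ _ => by simp
  rw [h]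
  simp
  ring

/-- the graph -/
abbrev Gr (I : List (ℕ × ℕ × ℕ) × ℕ) : SimpleGraph {x // x ∈ vs I} :=
  labGraph (vs I) fun u v => !adjH u v

theorem gr_adj {I : List (ℕ × ℕ × ℕ) × ℕ} {u v : {x // x ∈ vs I}} :
    (Gr I).Adj u v ↔ u ≠ v ∧ adjH u.1 v.1 = false := by
  show u ≠ v ∧ ((!adjH u.1 v.1) = true ∨ (!adjH v.1 u.1) = true) ↔ _
  rw [adjH_comm v.1 u.1, or_self]
  simp

theorem gr_not_adj {I : List (ℕ × ℕ × ℕ) × ℕ} {u v : {x // x ∈ vs I}} (h : ¬ (Gr I).Adj u v)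
    (hne : u ≠ v) : adjH u.1 v.1 = true := by
  by_contra hc
  exact h (gr_adj.2 ⟨hne, by simpa using hc⟩)

/-- the components of each triple are distinct -/
def Ok (v : V) : Prop := ∀ g, v = Sum.inr g →
  ∀ p q, p < 3 → q < 3 → cmp g.1.1 p = cmp g.1.1 q → p = q

theorem ok_of_mem {I : List (ℕ × ℕ × ℕ) × ℕ} (hI : X3CPr I) {v : V} (hv : v ∈ vs I) : Ok v := by
  rintro ⟨⟨t, c⟩, k⟩ rfl p q hp hq h
  rw [mem_vs_inr] at hv
  have ht : t ∈ I.1 := List.fst_mem_of_mem_zipIdx hv.1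
  have hn := (hI.1 t ht).1
  simp only [el, List.nodup_cons, List.mem_cons, List.not_mem_nil, or_false, not_or,
    not_false_eq_true, List.nodup_nil, and_true] at hn
  obtain ⟨⟨h1, h2⟩, h3⟩ := hn
  unfold cmp at h
  simp only at h
  interval_cases p <;> interval_cases q <;> simp_all [eq_comm]

/-- A neighbour of an element of the hole, and its next vertex. -/
theorem next_el {x : ℕ} {u u' : V} (h1 : adjH (Sum.inl x) u = true) (h2 : adjH u u' = true)
    (h3 : u' ≠ Sum.inl x) (h4 : adjH u' (Sum.inl x) = false) (hu : ∀ g, u' = Sum.inr g → g.2 < 9) :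
    ∃ (tc : (ℕ × ℕ × ℕ) × ℕ) (p j : ℕ), p < 3 ∧ j < 2 ∧ u = Sum.inr (tc, 3 * p + j) ∧
      u' = Sum.inr (tc, 3 * p + 2) ∧ cmp tc.1 p = x := by
  rcases u with y | ⟨tc, k⟩
  · rw [adjH_ll] at h1
    exact absurd h1 (by simp)
  rw [adjH_lr, adjE_iff] at h1
  obtain ⟨ha, hb⟩ := h1
  simp only at ha hb
  rcases u' with y | ⟨tc', k'⟩
  · rw [adjH_rl, adjE_iff] at h2
    exact absurd (congrArg Sum.inl (h2.2.symm.trans hb)) h3
  · rw [adjH_rr, adjD_iff] at h2
    obtain ⟨h5, h6, h7⟩ := h2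
    simp only at h5 h6 h7
    subst h5
    have h8 : k / 3 = k' / 3 := by
      rcases h7 with h7 | h7
      · exact h7
      · exact absurd h7.1 ha
    have h9 : k' % 3 = 2 := by
      by_contra hc
      have : adjE x (tc, k') = true := adjE_iff.2 ⟨hc, by simp only; rw [← h8]; exact hb⟩
      rw [adjH_rl, this] at h4
      exact absurd h4 (by simp)
    have h10 : k' < 9 := hu _ rfl
    refine ⟨tc, k / 3, k % 3, by omega, by omega, ?_, ?_, hb⟩
    · congr 2
      omega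
    · congr 2
      omega

/-- The middle vertex of an induced path with three gadget vertices. -/
theorem mid {g g' g'' : Gd} (h1 : adjD g g' = true) (h2 : adjD g' g'' = true) (hne : g ≠ g'')
    (h3 : adjD g g'' = false) : g'.2 % 3 = 2 ∧ g.1 = g'.1 ∧ g''.1 = g'.1 := by
  rw [adjD_iff] at h1 h2
  obtain ⟨a1, a2, a3⟩ := h1
  obtain ⟨b1, b2, b3⟩ := h2
  refine ⟨?_, a1, b1.symm⟩
  by_contra hc
  have h4 : g.2 / 3 = g'.2 / 3 := by tauto
  have h5 : g'.2 / 3 = g''.2 / 3 := by tauto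
  have h6 : adjD g g'' = true := by
    rw [adjD_iff]
    refine ⟨a1.trans b1, ?_, Or.inl (h4.trans h5)⟩
    intro h7
    exact hne (Prod.ext (a1.trans b1) h7)
  rw [h6] at h3
  exact absurd h3 (by simp)

/-- no induced path `u' u x w w'` around an element with `u' = w'` or `u'`, `w'` adjacent -/
theorem no_el {x : ℕ} {u u' w w' : V} (h1 : adjH (Sum.inl x) u = true) (h2 : adjH u u' = true)
    (h3 : u' ≠ Sum.inl x) (h4 : adjH u' (Sum.inl x) = false) (hu : ∀ g, u' = Sum.inr g → g.2 < 9)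
    (k1 : adjH (Sum.inl x) w = true) (k2 : adjH w w' = true)
    (k3 : w' ≠ Sum.inl x) (k4 : adjH w' (Sum.inl x) = false) (hw : ∀ g, w' = Sum.inr g → g.2 < 9)
    (huw : u ≠ w) (hn : adjH u w = false) (hok : Ok u) (h : u' = w' ∨ adjH u' w' = true) :
    False := by
  obtain ⟨tc, p, j, hp, hj, rfl, rfl, hx⟩ := next_el h1 h2 h3 h4 hu
  obtain ⟨tc', p', j', hp', hj', rfl, rfl, hx'⟩ := next_el k1 k2 k3 k4 hw
  have key : ¬ (tc = tc' ∧ p = p') := by
    rintro ⟨rfl, rfl⟩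
    have : adjD (tc, 3 * p + j) (tc, 3 * p + j') = true := by
      rw [adjD_iff]
      refine ⟨rfl, ?_, Or.inl (by simp only; omega)⟩
      intro hh
      simp only at hh
      apply huw
      rw [hh]
    rw [adjH_rr, this] at hn
    exact absurd hn (by simp)
  have htc : tc = tc' := by
    rcases h with h | h
    · rw [Sum.inr.injEq, Prod.mk.injEq] at h
      exact h.1
    · rw [adjH_rr, adjD_iff] at h
      exact h.1
  subst htc
  apply key
  refine ⟨rfl, ?_⟩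
  exact hok (tc, 3 * p + j) rfl p p' hp hp' (hx.trans hx'.symm)

/-- `H` has no induced cycle of length four. -/
theorem no_c4 {a b c d : V} (hok : Ok a ∧ Ok b ∧ Ok c ∧ Ok d)
    (hlt : (∀ g, a = Sum.inr g → g.2 < 9) ∧ (∀ g, b = Sum.inr g → g.2 < 9) ∧
      (∀ g, c = Sum.inr g → g.2 < 9) ∧ (∀ g, d = Sum.inr g → g.2 < 9))
    (h1 : adjH a b = true) (h2 : adjH b c = true) (h3 : adjH c d = true) (h4 : adjH d a = true)
    (h5 : a ≠ c) (h6 : adjH a c = false) (h7 : b ≠ d) (h8 : adjH b d = false) : False := by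
  have main : ∀ a b c d : V, Ok b → (∀ g, c = Sum.inr g → g.2 < 9) →
      adjH a b = true → adjH b c = true → adjH c d = true → adjH d a = true →
      a ≠ c → adjH a c = false → b ≠ d → adjH b d = false → ∀ x, a ≠ Sum.inl x := by
    intro a b c d hb hc h1 h2 h3 h4 h5 h6 h7 h8 x hx
    subst hx
    exact no_el h1 h2 (Ne.symm h5) (by rw [adjH_comm]; exact h6) hc
      (by rw [adjH_comm]; exact h4) (by rw [adjH_comm]; exact h3) (Ne.symm h5)
      (by rw [adjH_comm]; exact h6) hc h7 h8 hb (Or.inl rfl)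
  have ha := main a b c d hok.2.1 hlt.2.2.1 h1 h2 h3 h4 h5 h6 h7 h8
  have hb := main b c d a hok.2.2.1 hlt.2.2.2 h2 h3 h4 h1 h7 h8 (Ne.symm h5)
    (by rw [adjH_comm]; exact h6)
  have hc := main c d a b hok.2.2.2 hlt.1 h3 h4 h1 h2 (Ne.symm h5) (by rw [adjH_comm]; exact h6)
    (Ne.symm h7) (by rw [adjH_comm]; exact h8)
  have hd := main d a b c hok.1 hlt.2.1 h4 h1 h2 h3 (Ne.symm h7) (by rw [adjH_comm]; exact h8)
    h5 h6
  rcases a with x | a
  · exact ha x rfl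
  rcases b with x | b
  · exact hb x rfl
  rcases c with x | c
  · exact hc x rfl
  rcases d with x | d
  · exact hd x rfl
  rw [adjH_rr] at h1 h2 h3 h4 h6 h8
  have ea : a ≠ c := fun h => h5 (congrArg _ h)
  have eb : b ≠ d := fun h => h7 (congrArg _ h)
  have m1 := mid h1 h2 ea h6
  have m2 := mid h2 h3 eb h8
  have m3 := mid h3 h4 (Ne.symm ea) (by rw [adjD_comm]; exact h6)
  have m4 := mid h4 h1 (Ne.symm eb) (by rw [adjD_comm]; exact h8)
  have : adjD a c = true := by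
    rw [adjD_iff]
    refine ⟨m1.2.1.trans m1.2.2.symm, ?_, Or.inr ⟨m4.1, m2.1⟩⟩
    intro h
    exact ea (Prod.ext (m1.2.1.trans m1.2.2.symm) h)
  rw [this] at h6
  exact absurd h6 (by simp)

/-- `H` has no induced cycle of length five. -/
theorem no_c5 {a b c d e : V} (hok : Ok a ∧ Ok b ∧ Ok c ∧ Ok d ∧ Ok e)
    (hlt : (∀ g, a = Sum.inr g → g.2 < 9) ∧ (∀ g, b = Sum.inr g → g.2 < 9) ∧
      (∀ g, c = Sum.inr g → g.2 < 9) ∧ (∀ g, d = Sum.inr g → g.2 < 9) ∧
      (∀ g, e = Sum.inr g → g.2 < 9))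
    (h1 : adjH a b = true) (h2 : adjH b c = true) (h3 : adjH c d = true) (h4 : adjH d e = true)
    (h5 : adjH e a = true) (n1 : a ≠ c) (n2 : b ≠ d) (n3 : c ≠ e) (n4 : d ≠ a) (n5 : e ≠ b)
    (f1 : adjH a c = false) (f2 : adjH b d = false) (f3 : adjH c e = false)
    (f4 : adjH d a = false) (f5 : adjH e b = false) : False := by
  have main : ∀ a b c d e : V, Ok b → (∀ g, c = Sum.inr g → g.2 < 9) →
      (∀ g, d = Sum.inr g → g.2 < 9) →
      adjH a b = true → adjH b c = true → adjH c d = true → adjH d e = true → adjH e a = true →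
      a ≠ c → d ≠ a → e ≠ b → adjH a c = false → adjH d a = false → adjH e b = false →
      ∀ x, a ≠ Sum.inl x := by
    intro a b c d e hb hc hd h1 h2 h3 h4 h5 n1 n4 n5 f1 f4 f5 x hx
    subst hx
    exact no_el h1 h2 (Ne.symm n1) (by rw [adjH_comm]; exact f1) hc
      (by rw [adjH_comm]; exact h5) (by rw [adjH_comm]; exact h4) n4 f4 hd
      (Ne.symm n5) (by rw [adjH_comm]; exact f5) hb (Or.inr h3)
  have ha := main a b c d e hok.2.1 hlt.2.2.1 hlt.2.2.2.1 h1 h2 h3 h4 h5 n1 n4 n5 f1 f4 f5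
  have hb := main b c d e a hok.2.2.1 hlt.2.2.2.1 hlt.2.2.2.2 h2 h3 h4 h5 h1 n2 n5 n1 f2 f5 f1
  have hc := main c d e a b hok.2.2.2.1 hlt.2.2.2.2 hlt.1 h3 h4 h5 h1 h2 n3 n1 n2 f3 f1 f2
  have hd := main d e a b c hok.2.2.2.2 hlt.1 hlt.2.1 h4 h5 h1 h2 h3 n4 n2 n3 f4 f2 f3
  have he := main e a b c d hok.1 hlt.2.1 hlt.2.2.1 h5 h1 h2 h3 h4 n5 n3 n4 f5 f3 f4
  rcases a with x | a
  · exact ha x rfl
  rcases b with x | b
  · exact hb x rfl
  rcases c with x | c
  · exact hc x rfl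
  rcases d with x | d
  · exact hd x rfl
  rcases e with x | e
  · exact he x rfl
  rw [adjH_rr] at h1 h2 h3 h4 h5 f1 f2 f3 f4 f5
  have ea : a ≠ c := fun h => n1 (congrArg _ h)
  have eb : b ≠ d := fun h => n2 (congrArg _ h)
  have ec : c ≠ e := fun h => n3 (congrArg _ h)
  have ed : d ≠ a := fun h => n4 (congrArg _ h)
  have ee : e ≠ b := fun h => n5 (congrArg _ h)
  have m1 := mid h1 h2 ea f1
  have m2 := mid h2 h3 eb f2
  have m5 := mid h5 h1 ee f5
  have : adjD a c = true := by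
    rw [adjD_iff]
    refine ⟨m1.2.1.trans m1.2.2.symm, ?_, Or.inr ⟨m5.1, m2.1⟩⟩
    intro h
    exact ea (Prod.ext (m1.2.1.trans m1.2.2.symm) h)
  rw [this] at f1
  exact absurd f1 (by simp)

/-- `H` has no four pairwise adjacent vertices. -/
theorem no_k4 {a b c d : V}
    (hlt : (∀ g, a = Sum.inr g → g.2 < 9) ∧ (∀ g, b = Sum.inr g → g.2 < 9) ∧
      (∀ g, c = Sum.inr g → g.2 < 9) ∧ (∀ g, d = Sum.inr g → g.2 < 9)) (h1 : adjH a b = true) (h2 : adjH a c = true) (h3 : adjH a d = true)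
    (h4 : adjH b c = true) (h5 : adjH b d = true) (h6 : adjH c d = true) : False := by
  have main : ∀ a b c d : V, adjH a b = true → adjH a c = true → adjH a d = true →
      adjH b c = true → adjH b d = true → adjH c d = true → ∀ x, a ≠ Sum.inl x := by
    intro a b c d h1 h2 h3 h4 h5 h6 x hx
    subst hx
    rcases b with y | b
    · simp [adjH_ll] at h1
    rcases c with y | c
    · simp [adjH_ll] at h2
    rcases d with y | d
    · simp [adjH_ll] at h3
    rw [adjH_lr, adjE_iff] at h1 h2 h3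
    rw [adjH_rr, adjD_iff] at h4 h5 h6
    obtain ⟨a1, -⟩ := h1
    obtain ⟨a2, -⟩ := h2
    obtain ⟨a3, -⟩ := h3
    obtain ⟨-, b1, b2⟩ := h4
    obtain ⟨-, c1, c2⟩ := h5
    obtain ⟨-, d1, d2⟩ := h6
    omega
  have ha := main a b c d h1 h2 h3 h4 h5 h6
  have hb := main b a c d (by rw [adjH_comm]; exact h1) h4 h5 h2 h3 h6
  have hc := main c a b d (by rw [adjH_comm]; exact h2) (by rw [adjH_comm]; exact h4) h6 h1 h3 h5
  have hd := main d a b c (by rw [adjH_comm]; exact h3) (by rw [adjH_comm]; exact h5)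
    (by rw [adjH_comm]; exact h6) h1 h2 h4
  rcases a with x | a
  · exact ha x rfl
  rcases b with x | b
  · exact hb x rfl
  rcases c with x | c
  · exact hc x rfl
  rcases d with x | d
  · exact hd x rfl
  obtain ⟨l1, l2, l3, l4⟩ := hlt
  have l1 := l1 a rfl
  have l2 := l2 b rfl
  have l3 := l3 c rfl
  have l4 := l4 d rfl
  rw [adjH_rr, adjD_iff] at h1 h2 h3 h4 h5 h6
  obtain ⟨-, a1, a2⟩ := h1
  obtain ⟨-, b1, b2⟩ := h2
  obtain ⟨-, c1, c2⟩ := h3
  obtain ⟨-, d1, d2⟩ := h4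
  obtain ⟨-, e1, e2⟩ := h5
  obtain ⟨-, g1, g2⟩ := h6
  omega

end Pool.Agent.H263_OHF
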