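import Pool.Agent.H263_OHF.Graph

/-!
# The graph has no holes of length at least five
-/

set_option autoImplicit false

namespace Pool.Agent.H263_OHF

open Pool.Agent.NPC Pool.Agent.NPC.H632 Pool.Agent.H622R2

theorem cyc_adj {n i j : ℕ} (hi : i < n) (hj : j < n) (hij : i < j) :
    (SimpleGraph.cycleGraph n).Adj ⟨i, hi⟩ ⟨j, hj⟩ ↔ j = i + 1 ∨ n + i = j + 1 := by
  rw [SimpleGraph.cycleGraph_adj', Fin.sub_def, Fin.sub_def]
  have h1 : (n - j + i) % n = n - j + i := Nat.mod_eq_of_lt (by omega)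
  have h2 : (n - i + j) % n = j - i := by
    rw [show n - i + j = (j - i) + n by omega, Nat.add_mod_right, Nat.mod_eq_of_lt (by omega)]
  simp only [h1, h2]
  omega

theorem lt9 {I : List (ℕ × ℕ × ℕ) × ℕ} (u : {x // x ∈ vs I}) : ∀ g, u.1 = Sum.inr g → g.2 < 9 := by
  rintro ⟨tc, k⟩ h
  have := u.2
  rw [h, mem_vs_inr] at this
  exact this.2

theorem no_hole {I : List (ℕ × ℕ × ℕ) × ℕ} (hI : X3CPr I) (n : ℕ) (hn : 5 ≤ n) :
    IsEmpty (SimpleGraph.cycleGraph n ↪g Gr I) := by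
  refine ⟨fun e => ?_⟩
  have hA : ∀ i j (hi : i < n) (hj : j < n), i < j → ¬ (j = i + 1 ∨ n + i = j + 1) →
      adjH (e ⟨i, hi⟩).1 (e ⟨j, hj⟩).1 = true := by
    intro i j hi hj hij h
    apply gr_not_adj
    · rw [e.map_adj_iff, cyc_adj hi hj hij]
      exact h
    · intro h2
      have := congrArg Fin.val (e.injective h2)
      simp only at this
      omega
  have hB : ∀ i j (hi : i < n) (hj : j < n), i < j → (j = i + 1 ∨ n + i = j + 1) →
      adjH (e ⟨i, hi⟩).1 (e ⟨j, hj⟩).1 = false := by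
    intro i j hi hj hij h
    rw [← cyc_adj hi hj hij, ← e.map_adj_iff, gr_adj] at h
    exact h.2
  have hC : ∀ i j (hi : i < n) (hj : j < n), i ≠ j → (e ⟨i, hi⟩).1 ≠ (e ⟨j, hj⟩).1 := by
    intro i j hi hj hij h2
    have := congrArg Fin.val (e.injective (Subtype.ext h2))
    exact hij this
  have hok : ∀ i (hi : i < n), Ok (e ⟨i, hi⟩).1 := fun i hi => ok_of_mem hI (e ⟨i, hi⟩).2
  rcases Nat.lt_or_ge n 6 with h6 | h6
  · obtain rfl : n = 5 := by omega
    exact no_c5 (a := (e ⟨0, by omega⟩).1) (b := (e ⟨2, by omega⟩).1) (c := (e ⟨4, by omega⟩).1)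
      (d := (e ⟨1, by omega⟩).1) (e := (e ⟨3, by omega⟩).1)
      ⟨hok _ _, hok _ _, hok _ _, hok _ _, hok _ _⟩ ⟨lt9 _, lt9 _, lt9 _, lt9 _, lt9 _⟩
      (hA 0 2 _ _ (by omega) (by omega)) (hA 2 4 _ _ (by omega) (by omega))
      (by rw [adjH_comm]; exact hA 1 4 _ _ (by omega) (by omega))
      (hA 1 3 _ _ (by omega) (by omega))
      (by rw [adjH_comm]; exact hA 0 3 _ _ (by omega) (by omega))
      (hC _ _ _ _ (by omega)) (hC _ _ _ _ (by omega)) (hC _ _ _ _ (by omega))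
      (hC _ _ _ _ (by omega)) (hC _ _ _ _ (by omega))
      (hB 0 4 _ _ (by omega) (by omega))
      (by rw [adjH_comm]; exact hB 1 2 _ _ (by omega) (by omega))
      (by rw [adjH_comm]; exact hB 3 4 _ _ (by omega) (by omega))
      (by rw [adjH_comm]; exact hB 0 1 _ _ (by omega) (by omega))
      (by rw [adjH_comm]; exact hB 2 3 _ _ (by omega) (by omega))
  · exact no_c4 (a := (e ⟨0, by omega⟩).1) (b := (e ⟨3, by omega⟩).1) (c := (e ⟨1, by omega⟩).1)
      (d := (e ⟨4, by omega⟩).1)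
      ⟨hok _ _, hok _ _, hok _ _, hok _ _⟩ ⟨lt9 _, lt9 _, lt9 _, lt9 _⟩
      (hA 0 3 _ _ (by omega) (by omega))
      (by rw [adjH_comm]; exact hA 1 3 _ _ (by omega) (by omega))
      (hA 1 4 _ _ (by omega) (by omega))
      (by rw [adjH_comm]; exact hA 0 4 _ _ (by omega) (by omega))
      (hC _ _ _ _ (by omega)) (hB 0 1 _ _ (by omega) (by omega))
      (hC _ _ _ _ (by omega)) (hB 3 4 _ _ (by omega) (by omega))

theorem indep_le {I : List (ℕ × ℕ × ℕ) × ℕ} (s : Finset {x // x ∈ vs I})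
    (hs : (Gr I).IsIndepSet (s : Set {x // x ∈ vs I})) : s.card ≤ 3 := by
  by_contra hc
  obtain ⟨t, ht, hcard⟩ := Finset.exists_subset_card_eq (show 4 ≤ s.card by omega)
  let f : Fin 4 ≃ t := (t.equivFinOfCardEq hcard).symm
  have key : ∀ i j : Fin 4, i ≠ j → adjH (f i).1.1 (f j).1.1 = true := by
    intro i j hij
    have hne : (f i).1 ≠ (f j).1 := fun h => hij (f.injective (Subtype.ext h))
    exact gr_not_adj (hs (ht (f i).2) (ht (f j).2) hne) hne
  exact no_k4 ⟨lt9 (f 0).1, lt9 (f 1).1, lt9 (f 2).1, lt9 (f 3).1⟩ (key 0 1 (by decide))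
    (key 0 2 (by decide)) (key 0 3 (by decide)) (key 1 2 (by decide)) (key 1 3 (by decide))
    (key 2 3 (by decide))

end Pool.Agent.H263_OHF
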