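import Pool.Agent.H263_OHF.Cover
import Pool.Agent.H598R2.Collapse

/-!
# Optimal colouring of odd-hole-free graphs is NP-hard
-/

set_option autoImplicit false

namespace Pool.Agent.H263_OHF

open Pool.Agent.NPC Pool.Agent.NPC.H632 Pool.Agent.H622R2

theorem poly_cmp {α : Type} [TEnc α] {f : α → ℕ × ℕ × ℕ} {g : α → ℕ} (hf : Poly f) (hg : Poly g) :
    Poly (fun a => cmp (f a) (g a)) := by
  unfold cmp
  fun_prop

theorem poly_adjE {α : Type} [TEnc α] {f : α → ℕ} {g : α → Gd} (hf : Poly f) (hg : Poly g) :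
    Poly (fun a => adjE (f a) (g a)) := by
  unfold adjE
  have h := poly_cmp (f := fun a => (g a).1.1) (g := fun a => (g a).2 / 3) (by fun_prop)
    (by fun_prop)
  fun_prop

theorem poly_adjD {α : Type} [TEnc α] {f g : α → Gd} (hf : Poly f) (hg : Poly g) :
    Poly (fun a => adjD (f a) (g a)) := by
  unfold adjD
  fun_prop

theorem poly_adjH {α : Type} [TEnc α] {f g : α → V} (hf : Poly f) (hg : Poly g) :
    Poly (fun a => adjH (f a) (g a)) := by
  unfold adjH
  refine NPC.Poly.sumElim hf ?_ ?_
  · refine NPC.Poly.sumElim (hg.comp (NPC.Poly.fst NPC.Poly.id)) (NPC.Poly.const false) ?_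
    exact poly_adjE (by fun_prop) (by fun_prop)
  · refine NPC.Poly.sumElim (hg.comp (NPC.Poly.fst NPC.Poly.id)) ?_ ?_
    · exact poly_adjE (by fun_prop) (by fun_prop)
    · exact poly_adjD (by fun_prop) (by fun_prop)

theorem uPoly_nel : UPoly nel := by
  have h1 : UPoly (fun I : List (ℕ × ℕ × ℕ) × ℕ => 3 * I.1.length) :=
    UPoly.mul (UPoly.const 3) (UPoly.length (NPC.Poly.fst NPC.Poly.id))
  refine UPoly.of_le ?_ h1 fun I => ?_
  · unfold nel
    fun_prop
  · unfold nel
    have := min_le_right I.2 I.1.length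
    omega

theorem poly_vs : Poly vs := by
  have h1 : Poly (fun I : List (ℕ × ℕ × ℕ) × ℕ => List.range (nel I)) := UPoly.range uPoly_nel
  have h2 : Poly (fun _ : (List (ℕ × ℕ × ℕ) × ℕ) × ((ℕ × ℕ × ℕ) × ℕ) => List.range 9) :=
    NPC.Poly.const _
  unfold vs
  fun_prop

/-- the adjacency matrix of the graph and the number of colours -/
def out (I : List (ℕ × ℕ × ℕ) × ℕ) : List (List Bool) × ℕ :=
  (mat (vs I) (fun u v => !adjH u v), I.2 + 3 * I.1.length)

theorem poly_out : Poly out := by
  unfold out mat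
  refine NPC.Poly.pair ?_ (by fun_prop)
  refine NPC.Poly.map (F := fun I u => (vs I).map fun v => !adjH u v) poly_vs ?_
  refine NPC.Poly.map (l := fun p : (List (ℕ × ℕ × ℕ) × ℕ) × V => vs p.1)
    (F := fun p v => !adjH p.2 v) (poly_vs.comp (NPC.Poly.fst NPC.Poly.id)) ?_
  exact NPC.Poly.not (poly_adjH (by fun_prop) (by fun_prop))

/-- the graph of the adjacency matrix -/
noncomputable def iso (I : List (ℕ × ℕ × ℕ) × ℕ) : matGraph (out I).1 ≃g Gr I :=
  matIso (vs I) (fun u v => !adjH u v) (nodup_vs I)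

/-- the promise -/
def Pr (J : List (List Bool) × ℕ) : Prop :=
  (∀ n, 5 ≤ n → IsEmpty (SimpleGraph.cycleGraph n ↪g matGraph J.1)) ∧
    ∀ s : Finset (Fin J.1.length), (matGraph J.1).IsIndepSet (s : Set (Fin J.1.length)) → s.card ≤ 3

theorem pr_out {I : List (ℕ × ℕ × ℕ) × ℕ} (hI : X3CPr I) : Pr (out I) := by
  constructor
  · intro n hn
    refine ⟨fun e => ?_⟩
    exact (no_hole hI n hn).false ((iso I).toEmbedding.comp e)
  · intro s hs
    have h := indep_le (I := I) (s.map (iso I).toEquiv.toEmbedding) ?_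
    · rwa [Finset.card_map] at h
    · intro u hu v hv hne
      rw [Finset.mem_coe, Finset.mem_map] at hu hv
      obtain ⟨u', hu', rfl⟩ := hu
      obtain ⟨v', hv', rfl⟩ := hv
      have hne' : u' ≠ v' := fun h => hne (by rw [h])
      intro hadj
      exact hs hu' hv' hne' ((iso I).map_adj_iff.1 hadj)

theorem out_iff {I : List (ℕ × ℕ × ℕ) × ℕ} (hI : X3CPr I) :
    X3C I ↔ (matGraph (out I).1).Colorable (out I).2 := by
  constructor
  · intro h
    exact (colorable_of_cover hI h).of_hom (iso I).toHom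
  · intro h
    exact cover_of_colorable hI (h.of_hom (iso I).symm.toHom)

theorem hardPr_col : HardPr Pr (fun J : List (List Bool) × ℕ => (matGraph J.1).Colorable J.2) :=
  hardPr_X3C.trans poly_out (fun _ h => pr_out h) (fun _ h => out_iff h)

theorem pr_odd {J : List (List Bool) × ℕ} (h : Pr J) : OddHoleFree (matGraph J.1) :=
  fun n hn _ => h.1 n hn

/-- An algorithm for optimal colourings. -/
def Colours (A : List Bool → List Bool) : Prop :=
  ∀ M : List (List Bool), OddHoleFree (matGraph M) → ∃ c : List ℕ, A (bits M) = bits c ∧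
    OptimalColouring M c

/-- the test -/
def test (p : List Bool × (List (List Bool) × ℕ)) : Bool :=
  match unbits (List ℕ) p.1 with
  | none => false
  | some c => (List.range p.2.1.length).all fun i => decide (c.getD i 0 < p.2.2)

theorem collapse {A : List Bool → List Bool} (hA : PolyTime A) (hc : Colours A) :
    ∀ L, InNP L → InP L := by
  intro L hL
  obtain ⟨f, hf, hpr, hfL⟩ := hardPr_col L hL
  have h1 : PolyTime (fun x => bits (f x).1) := PC.toPolyTime
    (show PC (fun x : List Bool => x) (bits : List (List Bool) → List Bool) (fun x => (f x).1) from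
      PC.comp (g := fun I : List (List Bool) × ℕ => I.1) (f := f) (NPC.Poly.fst NPC.Poly.id) hf)
  have h2 : PolyTime (fun x => A (bits (f x).1)) := H642R2.TMSim.polyTime_comp hA h1
  have h3 : PC (fun x : List Bool => x) (fun x : List Bool => x) (fun x => A (bits (f x).1)) :=
    H642R2.TMSim.polyTime_toPC h2
  have h4 : PC (fun x : List Bool => x) (bits : List Bool → List Bool)
      (fun x => A (bits (f x).1)) :=
    PC.comp (g := fun x => x) (f := fun x => A (bits (f x).1)) PC.rawIn h3
  have h6 : PC (fun x : List Bool => x) (bits : List Bool × (List (List Bool) × ℕ) → List Bool)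
      (fun x => (A (bits (f x).1), f x)) := PC.node h4 hf
  have h7 : Poly test := (NPC.Poly.optCases
    (o := fun p : List Bool × (List (List Bool) × ℕ) => unbits (List ℕ) p.1)
    (g := fun _ => false)
    (h := fun p c => (List.range p.2.1.length).all fun i => decide (c.getD i 0 < p.2.2))
    (poly_unbits.comp (NPC.Poly.fst NPC.Poly.id)) (NPC.Poly.const false)
    (by
      have hr : Poly (fun p : (List Bool × (List (List Bool) × ℕ)) × List ℕ =>
          List.range p.1.2.1.length) := UPoly.range (UPoly.length (by fun_prop))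
      fun_prop)).congr fun p => by
      simp only [test]; cases unbits (List ℕ) p.1 <;> rfl
  have h8 : PC (fun x : List Bool => x) (bits : Bool → List Bool)
      (fun x => test (A (bits (f x).1), f x)) :=
    PC.comp (g := test) (f := fun x => (A (bits (f x).1), f x)) h7 h6
  refine ⟨fun x => [test (A (bits (f x).1), f x)], PC.toPolyTime
    (PC.comp (g := fun b => [b]) (f := fun x => test (A (bits (f x).1), f x)) PC.rawBool h8),
    fun x => ?_⟩
  rw [hfL x]
  obtain ⟨c, hc1, hc2, hc3⟩ := hc (f x).1 (pr_odd (hpr x))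
  simp only [test, hc1, unbits_bits, List.cons.injEq, and_true, List.all_eq_true,
    List.mem_range, decide_eq_true_eq]
  constructor
  · intro h i hi
    exact hc3 _ h ⟨i, hi⟩
  · intro h
    refine ⟨SimpleGraph.Coloring.mk (fun v => ⟨c.getD v 0, h v v.2⟩) ?_⟩
    intro u v huv heq
    exact hc2 u v huv (congrArg Fin.val heq)

theorem main :
    NPHardP (fun J : List (List Bool) × ℕ => OddHoleFree (matGraph J.1) ∧
      (matGraph J.1).Colorable J.2) ∧
    (∀ L : Set (List Bool), InNP L → ∃ f : List Bool → List (List Bool) × ℕ,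
      PolyTime (fun w => bits (f w)) ∧ ∀ w,
        (∀ n, 5 ≤ n → IsEmpty (SimpleGraph.cycleGraph n ↪g matGraph (f w).1)) ∧
        (∀ s : Finset (Fin (f w).1.length),
          (matGraph (f w).1).IsIndepSet (s : Set (Fin (f w).1.length)) → s.card ≤ 3) ∧
        (w ∈ L ↔ (matGraph (f w).1).Colorable (f w).2)) ∧
    ((∃ A : List Bool → List Bool, PolyTime A ∧ ∀ M : List (List Bool),
        OddHoleFree (matGraph M) → ∃ c : List ℕ, A (bits M) = bits c ∧ OptimalColouring M c) →
      ∀ L : Set (List Bool), InNP L → InP L) := by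
  refine ⟨?_, ?_, ?_⟩
  · have h : HardI (fun J : List (List Bool) × ℕ => OddHoleFree (matGraph J.1) ∧
        (matGraph J.1).Colorable J.2) := by
      intro L hL
      obtain ⟨f, hf, hpr, hfL⟩ := hardPr_col L hL
      exact ⟨f, hf, fun x => (hfL x).trans ⟨fun h => ⟨pr_odd (hpr x), h⟩, fun h => h.2⟩⟩
    exact h.toNPHardP
  · intro L hL
    obtain ⟨f, hf, hpr, hfL⟩ := hardPr_col L hL
    exact ⟨f, PC.toPolyTime hf, fun w => ⟨(hpr w).1, (hpr w).2, hfL w⟩⟩
  · rintro ⟨A, hA, hc⟩
    exact collapse hA hc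

end Pool.Agent.H263_OHF
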